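import Mathlib

set_option autoImplicit false

namespace Pool.Agent.H902Z.PG

universe u

/-- The projections of a semigroup with involution: the idempotents `p` with `p* = p`. -/
def Proj (S : Type u) [Semigroup S] [StarMul S] : Type u :=
  {p : S // p * p = p ∧ star p = p}

/-- The defining relations `x_p x_p = x_p`, `(x_p x_q)(x_p x_q) = x_p x_q` and
`x_p x_q x_p = x_{pqp}` on the free semigroup over the projections. -/
inductive Rel (S : Type u) [Semigroup S] [StarMul S] :
    FreeSemigroup (Proj S) → FreeSemigroup (Proj S) → Prop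
  | idem (p : Proj S) : Rel S (FreeSemigroup.of p * FreeSemigroup.of p) (FreeSemigroup.of p)
  | sq (p q : Proj S) :
      Rel S ((FreeSemigroup.of p * FreeSemigroup.of q) * (FreeSemigroup.of p * FreeSemigroup.of q))
        (FreeSemigroup.of p * FreeSemigroup.of q)
  | conj (p q r : Proj S) (h : r.1 = p.1 * q.1 * p.1) :
      Rel S (FreeSemigroup.of p * FreeSemigroup.of q * FreeSemigroup.of p) (FreeSemigroup.of r)

/-- The free projection-generated semigroup `PG(P(S))`: the quotient of the free semigroup over
the projections of `S` by the congruence generated by the relations `Rel`. -/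
abbrev PG (S : Type u) [Semigroup S] [StarMul S] : Type u :=
  (conGen (Rel S)).Quotient

/-- Green's relation `L`: `T¹ x = T¹ y`. -/
def GreenL {T : Type u} [Semigroup T] (x y : T) : Prop :=
  (x = y ∨ ∃ a : T, x = a * y) ∧ (y = x ∨ ∃ a : T, y = a * x)

/-- Green's relation `R`: `x T¹ = y T¹`. -/
def GreenR {T : Type u} [Semigroup T] (x y : T) : Prop :=
  (x = y ∨ ∃ a : T, x = y * a) ∧ (y = x ∨ ∃ a : T, y = x * a)

/-- Green's relation `H`, the intersection of `L` and `R`. -/
def GreenH {T : Type u} [Semigroup T] (x y : T) : Prop :=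
  GreenL x y ∧ GreenR x y

end Pool.Agent.H902Z.PG
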