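import Pool.Agent.H902Z.PG.Semi

set_option autoImplicit false

namespace Pool.Agent.H902Z.PG

universe u

section General

variable {S : Type u} [Semigroup S] [StarMul S]

/-- generator -/
def gen (p : Proj S) : PG S := ((FreeSemigroup.of p : FreeSemigroup (Proj S)) : PG S)

theorem coe_mul' (a b : FreeSemigroup (Proj S)) :
    ((a * b : FreeSemigroup (Proj S)) : PG S) = (a : PG S) * (b : PG S) := rfl

theorem rel_eq {a b : FreeSemigroup (Proj S)} (h : Rel S a b) : (a : PG S) = (b : PG S) :=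
  (Con.eq _).2 (ConGen.Rel.of _ _ h)

theorem gen_idem (p : Proj S) : gen p * gen p = gen p := rel_eq (Rel.idem p)

theorem gen_sq (p q : Proj S) : gen p * gen q * (gen p * gen q) = gen p * gen q :=
  rel_eq (Rel.sq p q)

theorem gen_conj (p q r : Proj S) (h : r.1 = p.1 * q.1 * p.1) : gen p * gen q * gen p = gen r :=
  rel_eq (Rel.conj p q r h)

/-- evaluation of words -/
def ev : FreeSemigroup (Proj S) →ₙ* S := FreeSemigroup.lift (fun p => p.1)

theorem ev_rel (hS : ∀ a : S, a * star a * a = a) : conGen (Rel S) ≤ Con.ker (ev (S := S)) := by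
  rw [Con.conGen_le]
  intro a b h
  show ev a = ev b
  cases h with
  | idem p => simp [ev, p.2.1]
  | sq p q =>
    have := hS (p.1 * q.1)
    rw [star_mul, p.2.2, q.2.2] at this
    simp only [ev, map_mul, FreeSemigroup.lift_of]
    calc p.1 * q.1 * (p.1 * q.1) = p.1 * (q.1 * q.1) * ((p.1 * p.1) * q.1) := by
          rw [p.2.1, q.2.1]
      _ = p.1 * q.1 * (q.1 * p.1) * (p.1 * q.1) := by simp only [mul_assoc]
      _ = p.1 * q.1 := this
  | conj p q r h => simp [ev, h]

/-- the canonical homomorphism `PG S → S` -/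
def Phi (hS : ∀ a : S, a * star a * a = a) (w : PG S) : S :=
  Con.liftOn w ev (fun _ _ h => ev_rel hS h)

theorem Phi_coe (hS : ∀ a : S, a * star a * a = a) (a : FreeSemigroup (Proj S)) :
    Phi hS (a : PG S) = ev a := rfl

theorem Phi_mul (hS : ∀ a : S, a * star a * a = a) (a b : PG S) :
    Phi hS (a * b) = Phi hS a * Phi hS b := by
  induction a using Con.induction_on with
  | H a =>
  induction b using Con.induction_on with
  | H b => rw [← coe_mul', Phi_coe, Phi_coe, Phi_coe, map_mul]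

theorem Phi_gen (hS : ∀ a : S, a * star a * a = a) (p : Proj S) : Phi hS (gen p) = p.1 := rfl

end General

variable {G : Type u} [Group G] {L : Lab G}

/-- projections of the Rees part -/
def pr (σ : Y L) : Proj (SS L) :=
  ⟨.r σ 1 σ, by rw [rr_pos (good_self σ)]; simp [P_self], by simp⟩

/-- projections of the semilattice part -/
def pe (ρ : Y L) : Proj (SS L) :=
  ⟨.e ρ, by rw [ee_pos (good_self ρ), un_self], by simp⟩

/-- generators -/
noncomputable def X (σ : Y L) : PG (SS L) := gen (pr σ)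
/-- generators -/
noncomputable def E (ρ : Y L) : PG (SS L) := gen (pe ρ)

theorem XX (σ : Y L) : X σ * X σ = X σ := gen_idem _

theorem XXX {σ τ : Y L} (h : Good L (σ.1 ∪ τ.1)) : X σ * X τ * X σ = X σ := by
  refine gen_conj _ _ _ ?_
  show SS.r σ 1 σ = SS.r σ 1 σ * SS.r τ 1 τ * SS.r σ 1 σ
  rw [rr_pos h, rr_pos (h.mono (by grind))]
  simp [P_symm σ τ]

theorem EXE {ρ σ : Y L} (h : Good L (ρ.1 ∪ σ.1)) : E ρ * X σ * E ρ = X (un ρ σ h) := by
  refine gen_conj _ _ _ ?_
  show SS.r (un ρ σ h) 1 (un ρ σ h) = SS.e ρ * SS.r σ 1 σ * SS.e ρ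
  have h' : Good L (σ.1 ∪ ρ.1) := h.mono (by grind)
  have hy : un σ ρ h' = un ρ σ h := Y_ext (Set.union_comm _ _)
  rw [er_pos h, re_pos h', hy]
  simp [P_symm σ (un ρ σ h)]

theorem XEX {ρ σ : Y L} (h : Good L (ρ.1 ∪ σ.1)) : X σ * E ρ * X σ = X σ := by
  refine gen_conj _ _ _ ?_
  show SS.r σ 1 σ = SS.r σ 1 σ * SS.e ρ * SS.r σ 1 σ
  have h' : Good L (σ.1 ∪ ρ.1) := h.mono (by grind)
  rw [re_pos h', rr_pos (h.mono (by simp only [un_val]; grind))]
  simp [P_symm σ (un σ ρ h')]

theorem XE {ρ σ : Y L} (h : Good L (ρ.1 ∪ σ.1)) : X σ * E ρ = X σ * X (un ρ σ h) := by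
  have := gen_sq (pr σ) (pe ρ)
  rw [← EXE h]
  show X σ * E ρ = X σ * (E ρ * X σ * E ρ)
  simp only [← mul_assoc]
  simp only [← mul_assoc] at this
  exact this.symm

theorem EX {ρ σ : Y L} (h : Good L (ρ.1 ∪ σ.1)) : E ρ * X σ = X (un ρ σ h) * X σ := by
  have := gen_sq (pe ρ) (pr σ)
  rw [← EXE h]
  simp only [← mul_assoc] at this
  exact this.symm

theorem XE_sub {ρ σ : Y L} (h : ρ.1 ⊆ σ.1) : X σ * E ρ = X σ := by
  have hg : Good L (ρ.1 ∪ σ.1) := σ.2.2.mono (by grind)
  have : un ρ σ hg = σ := Y_ext (by simp only [un_val]; grind)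
  rw [XE hg, this, XX]

theorem EX_sub {ρ σ : Y L} (h : ρ.1 ⊆ σ.1) : E ρ * X σ = X σ := by
  have hg : Good L (ρ.1 ∪ σ.1) := σ.2.2.mono (by grind)
  have : un ρ σ hg = σ := Y_ext (by simp only [un_val]; grind)
  rw [EX hg, this, XX]

theorem chain1 {α β γ : Y L} (h1 : α.1 ⊆ β.1) (h2 : β.1 ⊆ γ.1) :
    X γ * X β * X α = X γ * X α := by
  have hg : Good L (β.1 ∪ α.1) := β.2.2.mono (by grind)
  have : un β α hg = β := Y_ext (by simp only [un_val]; grind)
  calc X γ * X β * X α = X γ * (X (un β α hg) * X α) := by rw [this, mul_assoc]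
    _ = X γ * E β * X α := by rw [← EX hg, mul_assoc]
    _ = X γ * X α := by rw [XE_sub h2]

theorem chain2 {α β γ : Y L} (h1 : α.1 ⊆ β.1) (h2 : β.1 ⊆ γ.1) :
    X α * X β * X γ = X α * X γ := by
  have hg : Good L (β.1 ∪ α.1) := β.2.2.mono (by grind)
  have : un β α hg = β := Y_ext (by simp only [un_val]; grind)
  calc X α * X β * X γ = X α * X (un β α hg) * X γ := by rw [this]
    _ = X α * (E β * X γ) := by rw [← XE hg, mul_assoc]
    _ = X α * X γ := by rw [EX_sub h2]

theorem via {α β m : Y L} (h1 : α.1 ⊆ m.1) (h2 : β.1 ⊆ m.1) :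
    X α * X m * X β = X α * X β := by
  have hg : Good L (α.1 ∪ β.1) := m.2.2.mono (by grind)
  have a1 : X α * X (un α β hg) * X β = X α * X β := by
    rw [mul_assoc, ← EX hg, ← mul_assoc, XE_sub le_rfl]
  have a2 : X (un α β hg) * X m * X (un α β hg) = X (un α β hg) :=
    XXX (m.2.2.mono (by simp only [un_val]; grind))
  have a3 : X α * X (un α β hg) * X m = X α * X m := chain2 (by simp only [un_val]; grind) (by simp only [un_val]; grind)
  have a4 : X m * X (un α β hg) * X β = X m * X β := chain1 (by simp only [un_val]; grind) (by simp only [un_val]; grind)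
  calc X α * X m * X β = X α * (X m * X (un α β hg) * X β) := by rw [a4, mul_assoc]
    _ = (X α * X (un α β hg) * X m) * X (un α β hg) * X β := by rw [a3]; simp only [mul_assoc]
    _ = X α * (X (un α β hg) * X m * X (un α β hg)) * X β := by simp only [mul_assoc]
    _ = X α * X β := by rw [a2, a1]

theorem tri {σ τ υ : Y L} (h : Good L (σ.1 ∪ τ.1 ∪ υ.1)) : X σ * X τ * X υ = X σ * X υ := by
  let m : Y L := ⟨σ.1 ∪ τ.1 ∪ υ.1, σ.2.1.inl.inl, h⟩
  have s1 : σ.1 ⊆ m.1 := by simp only [m]; grind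
  have s2 : τ.1 ⊆ m.1 := by simp only [m]; grind
  have s3 : υ.1 ⊆ m.1 := by simp only [m]; grind
  have a1 : X m * X τ * X m = X m := XXX (h.mono (by simp only [m]; grind))
  calc X σ * X τ * X υ = X σ * X m * X τ * X υ := by rw [via s1 s2]
    _ = X σ * X m * (X τ * X m * X υ) := by rw [via s2 s3]; simp only [mul_assoc]
    _ = X σ * (X m * X τ * X m) * X υ := by simp only [mul_assoc]
    _ = X σ * X υ := by rw [a1, via s1 s3]

/-- singletons -/
def sg (a : L.V) : Y L := ⟨{a}, Set.singleton_nonempty a, by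
  intro x hx y hy z hz
  obtain rfl := Set.mem_singleton_iff.1 hx
  obtain rfl := Set.mem_singleton_iff.1 hy
  obtain rfl := Set.mem_singleton_iff.1 hz
  simp [L.c_self]⟩

theorem v_sg (a : L.V) : v (sg a) = a := v_mem (sg a)

theorem good3 {a b d : L.V} (h : L.c a b * L.c b d = L.c a d) :
    Good L ((sg a).1 ∪ (sg b).1 ∪ (sg d).1) := by
  have key : ∀ x ∈ (sg a).1 ∪ (sg b).1 ∪ (sg d).1, ∀ y ∈ (sg a).1 ∪ (sg b).1 ∪ (sg d).1,
      L.c x y = (L.c a x)⁻¹ * L.c a y := by
    intro x hx y hy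
    simp only [sg, Set.mem_union, Set.mem_singleton_iff] at hx hy
    rcases hx with (hx | hx) | hx <;> rcases hy with (hy | hy) | hy <;> rw [hx, hy]
    · simp [L.c_self]
    · simp [L.c_self]
    · simp [L.c_self]
    · simp [L.c_self, L.c_symm a b]
    · simp [L.c_self]
    · rw [← h]; simp
    · simp [L.c_self, L.c_symm a d]
    · rw [← h, L.c_symm b d]; simp
    · simp [L.c_self]
  intro x hx y hy z hz
  rw [key x hx y hy, key y hy z hz, key x hx z hz]
  simp [mul_assoc]

theorem good2 (a b : L.V) : Good L ((sg a).1 ∪ (sg b).1) :=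
  (good3 (a := a) (b := b) (d := b) (by simp [L.c_self])).mono Set.subset_union_left

/-- vertex generators -/
noncomputable def x (a : L.V) : PG (SS L) := X (sg a)

theorem xx (a : L.V) : x a * x a = x a := XX _
theorem xxx (a b : L.V) : x a * x b * x a = x a := XXX (good2 a b)
theorem xtri {a b d : L.V} (h : L.c a b * L.c b d = L.c a d) : x a * x b * x d = x a * x d :=
  tri (good3 h)

/-- edge loops -/
noncomputable def edge (o a b : L.V) : PG (SS L) := x o * x a * x b * x o

theorem edge_mul (o : L.V) {a b d : L.V} (h : L.c a b * L.c b d = L.c a d) :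
    edge o a b * edge o b d = edge o a d := by
  calc edge o a b * edge o b d = x o * x a * (x b * (x o * x o) * x b) * x d * x o := by
        simp only [edge, mul_assoc]
    _ = x o * (x a * x b * x d) * x o := by rw [xx, xxx]; simp only [mul_assoc]
    _ = edge o a d := by rw [xtri h]; simp only [edge, mul_assoc]

theorem edge_one {o : L.V} (ho : ∀ a, L.c o a = 1) {a b : L.V} (h : L.c a b = 1) :
    edge o a b = x o := by
  rw [edge, xtri (by rw [ho, ho, h, mul_one]), xxx]

theorem o_edge (o a b : L.V) : x o * edge o a b = edge o a b := by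
  simp only [edge, ← mul_assoc, xx]

theorem edge_o (o a b : L.V) : edge o a b * x o = edge o a b := by
  simp only [edge, mul_assoc, xx]

theorem Phi_edge {o : L.V} (ho : ∀ a, L.c o a = 1) (a b : L.V) :
    Phi regular (edge o a b) = SS.r (sg o) (L.c a b) (sg o) := by
  simp only [edge, Phi_mul, x, X, Phi_gen, pr]
  rw [rr_pos (good2 _ _), rr_pos (good2 _ _), rr_pos (good2 _ _)]
  simp [P, v_sg, ho, L.c_symm o b]

section NF

variable {o : L.V} (ψ : G → PG (SS L)) (hmul : ∀ g h, ψ (g * h) = ψ g * ψ h)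
  (hedge : ∀ a b, edge o a b = ψ (L.c a b))

/-- normal forms -/
noncomputable def N (g : G) (τ : Y L) : PG (SS L) := ψ g * x (v τ) * X τ

include hmul hedge in
theorem psi_o (g : G) : ψ g * x o = ψ g := by
  have : ψ g = ψ g * edge o o o := by rw [hedge, L.c_self, ← hmul, mul_one]
  rw [this, mul_assoc, edge_o]

include hmul hedge in
theorem N_X (g : G) {τ σ : Y L} (h : Good L (τ.1 ∪ σ.1)) :
    N ψ g τ * X σ = N ψ (g * P τ σ) σ := by
  have m1 := v_mem τ
  have m2 := v_mem σ
  have a1 : x (v τ) * X τ * X σ = x (v τ) * X σ := tri (h.mono (by simp only [sg]; grind))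
  have a2 : x (v τ) * x (v σ) * X σ = x (v τ) * X σ := tri (h.mono (by simp only [sg]; grind))
  have a3 := xxx (v σ) o
  calc N ψ g τ * X σ = ψ g * (x (v τ) * X τ * X σ) := by simp only [N, mul_assoc]
    _ = ψ g * x o * (x (v τ) * (x (v σ) * x o * x (v σ)) * X σ) := by
        rw [a1, a3, a2, psi_o ψ hmul hedge]
    _ = ψ g * edge o (v τ) (v σ) * x (v σ) * X σ := by simp only [edge, mul_assoc]
    _ = N ψ (g * P τ σ) σ := by rw [hedge, ← hmul]; rfl

include hmul hedge in
theorem N_gen (p : Proj (SS L)) (σ0 : Y L) (g : G) (τ : Y L) (g' : G) (τ' : Y L)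
    (h : SS.r σ0 g τ * p.1 = SS.r σ0 g' τ') : N ψ g τ * gen p = N ψ g' τ' := by
  obtain ⟨p, hp1, hp2⟩ := p
  rcases p with _ | ρ | ⟨σ, k, σ'⟩
  · simp at h
  · by_cases hg : Good L (τ.1 ∪ ρ.1)
    · rw [re_pos hg] at h
      injection h with _ h2 h3
      have hg' : Good L (ρ.1 ∪ τ.1) := hg.mono (by grind)
      have hy : un ρ τ hg' = un τ ρ hg := Y_ext (Set.union_comm _ _)
      have a1 : N ψ g τ * E ρ = N ψ g τ * X (un τ ρ hg) := by
        simp only [N, mul_assoc]
        rw [XE hg', hy]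
      have a2 := N_X ψ hmul hedge g (τ := τ) (σ := un τ ρ hg) (hg.mono (by simp only [un_val]; grind))
      rw [← h2, ← h3, ← a2, ← a1]
      rfl
    · rw [re_neg hg] at h
      cases h
  · rw [star_r] at hp2
    injection hp2 with e1 e2 e3
    subst e1
    have hk : k = 1 := by
      rw [rr_pos (good_self σ')] at hp1
      injection hp1 with _ h2 _
      simpa [P_self] using h2
    subst hk
    by_cases hg : Good L (τ.1 ∪ σ'.1)
    · rw [rr_pos hg] at h
      injection h with _ h2 h3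
      rw [← h2, ← h3, mul_one, ← N_X ψ hmul hedge g hg]
      rfl
    · rw [rr_neg hg] at h
      cases h

theorem r_mul_cases (σ0 : Y L) (g : G) (τ : Y L) (a : SS L) :
    SS.r σ0 g τ * a = .z ∨ ∃ g' τ', SS.r σ0 g τ * a = .r σ0 g' τ' := by
  rcases a with _ | ρ | ⟨σ, k, σ'⟩
  · simp
  · by_cases hg : Good L (τ.1 ∪ ρ.1)
    · exact Or.inr ⟨_, _, re_pos hg⟩
    · exact Or.inl (re_neg hg)
  · by_cases hg : Good L (τ.1 ∪ σ.1)
    · exact Or.inr ⟨_, _, rr_pos hg⟩
    · exact Or.inl (rr_neg hg)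

include hmul hedge in
theorem N_word (σ0 : Y L) (w : FreeSemigroup (Proj (SS L))) : ∀ (g : G) (τ : Y L) (g' : G)
    (τ' : Y L), SS.r σ0 g τ * ev w = SS.r σ0 g' τ' → N ψ g τ * (w : PG (SS L)) = N ψ g' τ' := by
  induction w using FreeSemigroup.recOnMul with
  | ih1 p => exact fun g τ g' τ' h => N_gen ψ hmul hedge p σ0 g τ g' τ' h
  | ih2 p w ih1 ih2 =>
    intro g τ g' τ' h
    rw [map_mul, ← mul_assoc] at h
    rcases r_mul_cases σ0 g τ (ev (FreeSemigroup.of p)) with h0 | ⟨g1, τ1, h1⟩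
    · rw [h0, z_mul] at h
      cases h
    · rw [h1] at h
      rw [coe_mul', ← mul_assoc, ih1 _ _ _ _ h1, ih2 _ _ _ _ h]

include hmul hedge in
theorem main_of (ho : ∀ a, L.c o a = 1) (hsurj : ∀ g, ∃ a b, L.c a b = g) :
    x o * x o = x o ∧ Function.Injective ψ ∧ Set.range ψ = {w | GreenH w (x o)} := by
  have h1 : ψ 1 = x o := by rw [← L.c_self o, ← hedge, edge_one ho (L.c_self o)]
  have hPhi : ∀ g, Phi regular (ψ g) = SS.r (sg o) g (sg o) := by
    intro g
    obtain ⟨a, b, rfl⟩ := hsurj g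
    rw [← hedge, Phi_edge ho]
  have hN : ∀ g, N ψ g (sg o) = ψ g := by
    intro g
    rw [N, v_sg, psi_o ψ hmul hedge]
    exact psi_o ψ hmul hedge g
  refine ⟨xx o, ?_, ?_⟩
  · intro g h hgh
    have := hPhi g
    rw [hgh, hPhi] at this
    injection this with _ h2 _
    exact h2.symm
  · ext w
    constructor
    · rintro ⟨g, rfl⟩
      refine ⟨⟨Or.inr ⟨ψ g, ?_⟩, Or.inr ⟨ψ g⁻¹, ?_⟩⟩, ⟨Or.inr ⟨ψ g, ?_⟩, Or.inr ⟨ψ g⁻¹, ?_⟩⟩⟩ <;>
        rw [← h1, ← hmul] <;> simp
    · rintro ⟨⟨hl, _⟩, ⟨hr1, hr2⟩⟩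
      have a1 : w * x o = w := by
        rcases hl with rfl | ⟨a, rfl⟩
        · exact xx o
        · rw [mul_assoc, xx]
      have a2 : x o * w = w := by
        rcases hr1 with rfl | ⟨a, rfl⟩
        · exact xx o
        · rw [← mul_assoc, xx]
      have hx : Phi regular (x o) = SS.r (sg o) 1 (sg o) := by rw [← h1, hPhi]
      have a3 : Phi regular w ≠ .z := by
        intro h0
        rcases hr2 with h | ⟨a, h⟩
        · rw [← h, hx] at h0
          cases h0
        · rw [h, Phi_mul, h0, z_mul] at hx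
          cases hx
      have a4 : SS.r (sg o) 1 (sg o) * Phi regular w = Phi regular w := by
        rw [← hx, ← Phi_mul, a2]
      have a5 : Phi regular w * SS.r (sg o) 1 (sg o) = Phi regular w := by
        rw [← hx, ← Phi_mul, a1]
      rcases r_mul_cases (sg o) 1 (sg o) (Phi regular w) with h0 | ⟨g, τ, hg⟩
      · exact absurd (a4.symm.trans h0) a3
      · have hw : Phi regular w = SS.r (sg o) g τ := a4.symm.trans hg
        have hτ : τ = sg o := by
          rw [hw] at a5
          by_cases hh : Good L (τ.1 ∪ (sg o).1)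
          · rw [rr_pos hh] at a5
            injection a5 with _ _ h3
            exact h3.symm
          · rw [rr_neg hh] at a5
            cases a5
        subst hτ
        induction w using Con.induction_on with
        | H w =>
          have := N_word ψ hmul hedge (sg o) w 1 (sg o) g (sg o) hg
          rw [hN, hN, h1, a2] at this
          exact ⟨g, this.symm⟩

end NF

/-- vertices -/
inductive VV (G : Type u) : Type u
  | o : VV G
  | b : VV G
  | A (g : G) : VV G
  | A' (g : G) : VV G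
  | C (g : G) : VV G

/-- labels -/
def cc : VV G → VV G → G
  | .A g, .b => g
  | .b, .A g => g⁻¹
  | .A' g, .b => g
  | .b, .A' g => g⁻¹
  | .b, .C h => h
  | .C h, .b => h⁻¹
  | .A g, .C h => g * h
  | .C h, .A g => (g * h)⁻¹
  | .A' k, .C _ => k
  | .C _, .A' k => k⁻¹
  | _, _ => 1

variable (G) in
/-- the labelling -/
def LL : Lab G where
  V := VV G
  c := cc
  c_self a := by cases a <;> rfl
  c_symm a b := by cases a <;> cases b <;> simp [cc]

theorem main (G : Type u) [Group G] :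
    ∃ (S : Type u) (_ : Semigroup S) (_ : StarMul S), (∀ a : S, a * star a * a = a) ∧
      ∃ e : PG S, e * e = e ∧ ∃ f : G → PG S, (∀ g h, f (g * h) = f g * f h) ∧
        Function.Injective f ∧ Set.range f = {w | GreenH w e} := by
  let o : (LL G).V := VV.o
  have ho : ∀ a, (LL G).c o a = 1 := by intro a; cases a <;> rfl
  let ed : VV G → VV G → PG (SS (LL G)) := fun a b => edge (L := LL G) o a b
  let ψ : G → PG (SS (LL G)) := fun g => ed (.A g) .b
  have em : ∀ a b d : VV G, cc a b * cc b d = cc a d → ed a b * ed b d = ed a d :=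
    fun a b d h => edge_mul (L := LL G) o h
  have e1 : ∀ a b : VV G, cc a b = 1 → ed a b = x o := fun a b h => edge_one ho h
  have oe : ∀ a b : VV G, x o * ed a b = ed a b := fun a b => o_edge (L := LL G) o a b
  have eo : ∀ a b : VV G, ed a b * x o = ed a b := fun a b => edge_o (L := LL G) o a b
  have p1 : ψ 1 = x o := e1 _ _ rfl
  have s1 : ∀ g, ed (.A' g) .b = ψ g := by
    intro g
    rw [← em (.A' g) (.A g) .b (by simp [cc]), e1 (.A' g) (.A g) rfl, oe]
  have s2 : ∀ k, ed (.A' k) (.C 1) = ψ k := by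
    intro k
    rw [← em (.A' k) .b (.C 1) (by simp [cc]), e1 .b (.C 1) rfl, eo, s1]
  have s3 : ∀ k h, ed (.A' k) (.C h) = ψ k := by
    intro k h
    rw [← em (.A' k) (.C 1) (.C h) (by simp [cc]), e1 (.C 1) (.C h) rfl, eo, s2]
  have s4 : ∀ g h, ed (.A g) (.C h) = ψ (g * h) := by
    intro g h
    rw [← em (.A g) (.A' (g * h)) (.C h) (by simp [cc]), e1 (.A g) (.A' (g * h)) rfl, oe, s3]
  have s5 : ∀ h, ed .b (.C h) = ψ h := by
    intro h
    have := em (.A 1) .b (.C h) (by simp [cc])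
    rw [e1 (.A 1) .b rfl, oe, s4, one_mul] at this
    exact this
  have hmul : ∀ g h, ψ (g * h) = ψ g * ψ h := by
    intro g h
    rw [← s4, ← s5 h]
    exact (em (.A g) .b (.C h) (by simp [cc])).symm
  have rev : ∀ a b : VV G, ed a b = ψ (cc a b) → ed b a = ψ (cc b a) := by
    intro a b h
    have hs : cc b a = (cc a b)⁻¹ := (LL G).c_symm a b
    have h2 : ed b a * ed a b = x o := by
      rw [em b a b (by rw [hs, inv_mul_cancel]; exact ((LL G).c_self b).symm)]
      exact e1 _ _ ((LL G).c_self b)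
    calc ed b a = ed b a * ψ (cc a b * (cc a b)⁻¹) := by rw [mul_inv_cancel, p1, eo]
      _ = ed b a * ed a b * ψ (cc a b)⁻¹ := by rw [hmul, ← h, mul_assoc]
      _ = ψ (cc b a) := by rw [h2, hs]; exact oe _ _
  have triv : ∀ a b : VV G, cc a b = 1 → ed a b = ψ (cc a b) := by
    intro a b h
    rw [e1 a b h, h, p1]
  have hedge : ∀ a b : VV G, ed a b = ψ (cc a b) := by
    intro a b
    rcases a with _ | _ | g | g | g <;> rcases b with _ | _ | h | h | h
    · exact triv _ _ rfl
    · exact triv _ _ rfl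
    · exact triv _ _ rfl
    · exact triv _ _ rfl
    · exact triv _ _ rfl
    · exact triv _ _ rfl
    · exact triv _ _ rfl
    · exact rev _ _ rfl
    · exact rev _ _ (s1 _)
    · exact s5 _
    · exact triv _ _ rfl
    · rfl
    · exact triv _ _ rfl
    · exact triv _ _ rfl
    · exact s4 _ _
    · exact triv _ _ rfl
    · exact s1 _
    · exact triv _ _ rfl
    · exact triv _ _ rfl
    · exact s3 _ _
    · exact triv _ _ rfl
    · exact rev _ _ (s5 _)
    · exact rev _ _ (s4 _ _)
    · exact rev _ _ (s3 _ _)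
    · exact triv _ _ rfl
  obtain ⟨m1, m2, m3⟩ := main_of (L := LL G) (o := o) ψ hmul hedge ho
    (fun g => ⟨.A g, .b, rfl⟩)
  exact ⟨SS (LL G), inferInstance, inferInstance, regular, x o, m1, ψ, hmul, m2, m3⟩

end Pool.Agent.H902Z.PG
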