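import Pool.Agent.H902Z.PG.Defs

set_option autoImplicit false

namespace Pool.Agent.H902Z.PG

universe u

/-- a skew labelling of the pairs of a set by a group -/
structure Lab (G : Type u) [Group G] where
  V : Type u
  c : V → V → G
  c_self : ∀ a, c a a = 1
  c_symm : ∀ a b, c b a = (c a b)⁻¹

variable {G : Type u} [Group G] (L : Lab G)

/-- sets on which the labelling is a cocycle -/
def Good (s : Set L.V) : Prop := ∀ a ∈ s, ∀ b ∈ s, ∀ d ∈ s, L.c a b * L.c b d = L.c a d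

theorem Good.mono {L : Lab G} {s t : Set L.V} (h : Good L t) (hst : s ⊆ t) : Good L s :=
  fun a ha b hb d hd => h a (hst ha) b (hst hb) d (hst hd)

/-- simplices -/
def Y : Type u := {s : Set L.V // s.Nonempty ∧ Good L s}

variable {L}

/-- base vertex -/
noncomputable def v (σ : Y L) : L.V := σ.2.1.some

theorem v_mem (σ : Y L) : v σ ∈ σ.1 := σ.2.1.some_mem

/-- sandwich matrix -/
noncomputable def P (σ τ : Y L) : G := L.c (v σ) (v τ)

/-- union of simplices -/
def un (σ τ : Y L) (h : Good L (σ.1 ∪ τ.1)) : Y L := ⟨σ.1 ∪ τ.1, σ.2.1.inl, h⟩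

@[simp] theorem un_val (σ τ : Y L) (h : Good L (σ.1 ∪ τ.1)) : (un σ τ h).1 = σ.1 ∪ τ.1 := rfl

theorem P_self (σ : Y L) : P σ σ = 1 := L.c_self _

theorem P_symm (σ τ : Y L) : P τ σ = (P σ τ)⁻¹ := L.c_symm _ _

theorem P_coc {σ τ υ : Y L} {m : Set L.V} (hm : Good L m) (h1 : σ.1 ⊆ m) (h2 : τ.1 ⊆ m)
    (h3 : υ.1 ⊆ m) : P σ τ * P τ υ = P σ υ :=
  hm _ (h1 (v_mem σ)) _ (h2 (v_mem τ)) _ (h3 (v_mem υ))

variable (L) in
/-- the semigroup -/
inductive SS : Type u
  | z : SS
  | e (ρ : Y L) : SS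
  | r (σ : Y L) (g : G) (τ : Y L) : SS

open Classical in
/-- multiplication -/
noncomputable def mul : SS L → SS L → SS L
  | .z, _ => .z
  | _, .z => .z
  | .e ρ, .e ρ' => if h : Good L (ρ.1 ∪ ρ'.1) then .e (un ρ ρ' h) else .z
  | .e ρ, .r σ g τ => if h : Good L (ρ.1 ∪ σ.1) then .r (un ρ σ h) (P (un ρ σ h) σ * g) τ else .z
  | .r σ g τ, .e ρ => if h : Good L (τ.1 ∪ ρ.1) then .r σ (g * P τ (un τ ρ h)) (un τ ρ h) else .z
  | .r σ g τ, .r σ' g' τ' => if Good L (τ.1 ∪ σ'.1) then .r σ (g * P τ σ' * g') τ' else .z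

noncomputable instance : Mul (SS L) := ⟨mul⟩

@[simp] theorem z_mul (a : SS L) : (SS.z : SS L) * a = .z := by
  cases a <;> rfl

@[simp] theorem mul_z (a : SS L) : a * (SS.z : SS L) = .z := by
  cases a <;> rfl

theorem ee_pos {ρ ρ' : Y L} (h : Good L (ρ.1 ∪ ρ'.1)) :
    (SS.e ρ : SS L) * SS.e ρ' = .e (un ρ ρ' h) := dif_pos h
theorem ee_neg {ρ ρ' : Y L} (h : ¬ Good L (ρ.1 ∪ ρ'.1)) :
    (SS.e ρ : SS L) * SS.e ρ' = .z := dif_neg h
theorem er_pos {ρ σ τ : Y L} {g : G} (h : Good L (ρ.1 ∪ σ.1)) :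
    (SS.e ρ : SS L) * SS.r σ g τ = .r (un ρ σ h) (P (un ρ σ h) σ * g) τ := dif_pos h
theorem er_neg {ρ σ τ : Y L} {g : G} (h : ¬ Good L (ρ.1 ∪ σ.1)) :
    (SS.e ρ : SS L) * SS.r σ g τ = .z := dif_neg h
theorem re_pos {ρ σ τ : Y L} {g : G} (h : Good L (τ.1 ∪ ρ.1)) :
    (SS.r σ g τ : SS L) * SS.e ρ = .r σ (g * P τ (un τ ρ h)) (un τ ρ h) := dif_pos h
theorem re_neg {ρ σ τ : Y L} {g : G} (h : ¬ Good L (τ.1 ∪ ρ.1)) :
    (SS.r σ g τ : SS L) * SS.e ρ = .z := dif_neg h
theorem rr_pos {σ τ σ' τ' : Y L} {g g' : G} (h : Good L (τ.1 ∪ σ'.1)) :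
    (SS.r σ g τ : SS L) * SS.r σ' g' τ' = .r σ (g * P τ σ' * g') τ' := if_pos h
theorem rr_neg {σ τ σ' τ' : Y L} {g g' : G} (h : ¬ Good L (τ.1 ∪ σ'.1)) :
    (SS.r σ g τ : SS L) * SS.r σ' g' τ' = .z := if_neg h

theorem r_ext {σ τ σ' τ' : Y L} {g g' : G} (h1 : σ.1 = σ'.1) (h2 : g = g') (h3 : τ.1 = τ'.1) :
    (SS.r σ g τ : SS L) = .r σ' g' τ' := by
  obtain rfl : σ = σ' := Subtype.ext h1
  obtain rfl : τ = τ' := Subtype.ext h3
  rw [h2]

theorem Y_ext {σ σ' : Y L} (h1 : σ.1 = σ'.1) : σ = σ' := Subtype.ext h1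

theorem mul_assoc' (a b d : SS L) : a * b * d = a * (b * d) := by
  rcases a with _ | ρ | ⟨σ, g, τ⟩
  · simp
  · rcases b with _ | ρ' | ⟨σ', g', τ'⟩
    · simp
    · rcases d with _ | ρ'' | ⟨σ'', g'', τ''⟩
      · simp
      · by_cases h : Good L (ρ.1 ∪ ρ'.1 ∪ ρ''.1)
        · have h1 : Good L (ρ.1 ∪ ρ'.1) := h.mono Set.subset_union_left
          have h2 : Good L (ρ'.1 ∪ ρ''.1) := h.mono (by grind)
          have h3 : Good L (ρ.1 ∪ (ρ'.1 ∪ ρ''.1)) := h.mono (by grind)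
          rw [ee_pos h1, ee_pos h2, ee_pos (ρ := un ρ ρ' h1) h, ee_pos (ρ' := un ρ' ρ'' h2) h3]
          congr 1
          exact Y_ext (Set.union_assoc _ _ _)
        · have e1 : SS.e ρ * SS.e ρ' * SS.e ρ'' = (SS.z : SS L) := by
            by_cases h1 : Good L (ρ.1 ∪ ρ'.1)
            · rw [ee_pos h1, ee_neg (ρ := un ρ ρ' h1) h]
            · rw [ee_neg h1, z_mul]
          have e2 : SS.e ρ * (SS.e ρ' * SS.e ρ'') = (SS.z : SS L) := by
            by_cases h1 : Good L (ρ'.1 ∪ ρ''.1)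
            · rw [ee_pos h1, ee_neg (ρ' := un ρ' ρ'' h1) (fun h' => h (h'.mono (by simp; grind)))]
            · rw [ee_neg h1, mul_z]
          rw [e1, e2]
      · by_cases h : Good L (ρ.1 ∪ ρ'.1 ∪ σ''.1)
        · have h1 : Good L (ρ.1 ∪ ρ'.1) := h.mono Set.subset_union_left
          have h2 : Good L (ρ'.1 ∪ σ''.1) := h.mono (by grind)
          have h3 : Good L (ρ.1 ∪ (ρ'.1 ∪ σ''.1)) := h.mono (by grind)
          rw [ee_pos h1, er_pos h2, er_pos (ρ := un ρ ρ' h1) h, er_pos (σ := un ρ' σ'' h2) h3]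
          have hy : un (un ρ ρ' h1) σ'' h = un ρ (un ρ' σ'' h2) h3 :=
            Y_ext (Set.union_assoc _ _ _)
          rw [hy, ← mul_assoc, P_coc h (by simp; grind) (by simp; grind) (by grind)]
        · have e1 : SS.e ρ * SS.e ρ' * SS.r σ'' g'' τ'' = (SS.z : SS L) := by
            by_cases h1 : Good L (ρ.1 ∪ ρ'.1)
            · rw [ee_pos h1, er_neg (ρ := un ρ ρ' h1) h]
            · rw [ee_neg h1, z_mul]
          have e2 : SS.e ρ * (SS.e ρ' * SS.r σ'' g'' τ'') = (SS.z : SS L) := by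
            by_cases h1 : Good L (ρ'.1 ∪ σ''.1)
            · rw [er_pos h1, er_neg (σ := un ρ' σ'' h1) (fun h' => h (h'.mono (by simp; grind)))]
            · rw [er_neg h1, mul_z]
          rw [e1, e2]
    · rcases d with _ | ρ'' | ⟨σ'', g'', τ''⟩
      · simp
      · by_cases h1 : Good L (ρ.1 ∪ σ'.1)
        · by_cases h2 : Good L (τ'.1 ∪ ρ''.1)
          · rw [er_pos h1, re_pos h2, re_pos h2, er_pos h1, mul_assoc]
          · rw [er_pos h1, re_neg h2, re_neg h2, mul_z]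
        · by_cases h2 : Good L (τ'.1 ∪ ρ''.1)
          · rw [er_neg h1, re_pos h2, er_neg h1, z_mul]
          · rw [er_neg h1, re_neg h2, mul_z, z_mul]
      · by_cases h1 : Good L (ρ.1 ∪ σ'.1)
        · by_cases h2 : Good L (τ'.1 ∪ σ''.1)
          · rw [er_pos h1, rr_pos h2, rr_pos h2, er_pos h1]
            simp only [mul_assoc]
          · rw [er_pos h1, rr_neg h2, rr_neg h2, mul_z]
        · by_cases h2 : Good L (τ'.1 ∪ σ''.1)
          · rw [er_neg h1, rr_pos h2, er_neg h1, z_mul]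
          · rw [er_neg h1, rr_neg h2, mul_z, z_mul]
  · rcases b with _ | ρ' | ⟨σ', g', τ'⟩
    · simp
    · rcases d with _ | ρ'' | ⟨σ'', g'', τ''⟩
      · simp
      · by_cases h : Good L (τ.1 ∪ ρ'.1 ∪ ρ''.1)
        · have h1 : Good L (τ.1 ∪ ρ'.1) := h.mono Set.subset_union_left
          have h2 : Good L (ρ'.1 ∪ ρ''.1) := h.mono (by grind)
          have h3 : Good L (τ.1 ∪ (ρ'.1 ∪ ρ''.1)) := h.mono (by grind)
          rw [re_pos h1, ee_pos h2, re_pos (τ := un τ ρ' h1) h, re_pos (ρ := un ρ' ρ'' h2) h3]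
          have hy : un (un τ ρ' h1) ρ'' h = un τ (un ρ' ρ'' h2) h3 :=
            Y_ext (Set.union_assoc _ _ _)
          rw [hy, mul_assoc, P_coc h (by grind) (by simp) (by simp; grind)]
        · have e1 : SS.r σ g τ * SS.e ρ' * SS.e ρ'' = (SS.z : SS L) := by
            by_cases h1 : Good L (τ.1 ∪ ρ'.1)
            · rw [re_pos h1, re_neg (τ := un τ ρ' h1) h]
            · rw [re_neg h1, z_mul]
          have e2 : SS.r σ g τ * (SS.e ρ' * SS.e ρ'') = (SS.z : SS L) := by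
            by_cases h1 : Good L (ρ'.1 ∪ ρ''.1)
            · rw [ee_pos h1, re_neg (ρ := un ρ' ρ'' h1) (fun h' => h (h'.mono (by simp; grind)))]
            · rw [ee_neg h1, mul_z]
          rw [e1, e2]
      · by_cases h : Good L (τ.1 ∪ ρ'.1 ∪ σ''.1)
        · have h1 : Good L (τ.1 ∪ ρ'.1) := h.mono Set.subset_union_left
          have h2 : Good L (ρ'.1 ∪ σ''.1) := h.mono (by grind)
          have h3 : Good L (τ.1 ∪ (ρ'.1 ∪ σ''.1)) := h.mono (by grind)
          rw [re_pos h1, er_pos h2, rr_pos (τ := un τ ρ' h1) h, rr_pos (σ' := un ρ' σ'' h2) h3]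
          have a1 : P τ (un τ ρ' h1) * P (un τ ρ' h1) σ'' = P τ σ'' :=
            P_coc h (by grind) (by simp) (by grind)
          have a2 : P τ (un ρ' σ'' h2) * P (un ρ' σ'' h2) σ'' = P τ σ'' :=
            P_coc h (by grind) (by simp; grind) (by grind)
          rw [mul_assoc g, a1, ← a2]
          simp only [mul_assoc]
        · have e1 : SS.r σ g τ * SS.e ρ' * SS.r σ'' g'' τ'' = (SS.z : SS L) := by
            by_cases h1 : Good L (τ.1 ∪ ρ'.1)
            · rw [re_pos h1, rr_neg (τ := un τ ρ' h1) h]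
            · rw [re_neg h1, z_mul]
          have e2 : SS.r σ g τ * (SS.e ρ' * SS.r σ'' g'' τ'') = (SS.z : SS L) := by
            by_cases h1 : Good L (ρ'.1 ∪ σ''.1)
            · rw [er_pos h1, rr_neg (σ' := un ρ' σ'' h1) (fun h' => h (h'.mono (by simp; grind)))]
            · rw [er_neg h1, mul_z]
          rw [e1, e2]
    · rcases d with _ | ρ'' | ⟨σ'', g'', τ''⟩
      · simp
      · by_cases h1 : Good L (τ.1 ∪ σ'.1)
        · by_cases h2 : Good L (τ'.1 ∪ ρ''.1)
          · rw [rr_pos h1, re_pos h2, re_pos h2, rr_pos h1]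
            simp only [mul_assoc]
          · rw [rr_pos h1, re_neg h2, re_neg h2, mul_z]
        · by_cases h2 : Good L (τ'.1 ∪ ρ''.1)
          · rw [rr_neg h1, re_pos h2, rr_neg h1, z_mul]
          · rw [rr_neg h1, re_neg h2, mul_z, z_mul]
      · by_cases h1 : Good L (τ.1 ∪ σ'.1)
        · by_cases h2 : Good L (τ'.1 ∪ σ''.1)
          · rw [rr_pos h1, rr_pos h2, rr_pos h2, rr_pos h1]
            simp only [mul_assoc]
          · rw [rr_pos h1, rr_neg h2, rr_neg h2, mul_z]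
        · by_cases h2 : Good L (τ'.1 ∪ σ''.1)
          · rw [rr_neg h1, rr_pos h2, rr_neg h1, z_mul]
          · rw [rr_neg h1, rr_neg h2, mul_z, z_mul]

noncomputable instance : Semigroup (SS L) := { mul_assoc := mul_assoc' }

/-- involution -/
def st : SS L → SS L
  | .z => .z
  | .e ρ => .e ρ
  | .r σ g τ => .r τ g⁻¹ σ

instance : InvolutiveStar (SS L) where
  star := st
  star_involutive a := by
    cases a <;> simp [st]

@[simp] theorem star_z : star (SS.z : SS L) = .z := rfl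
@[simp] theorem star_e (ρ : Y L) : star (SS.e ρ : SS L) = .e ρ := rfl
@[simp] theorem star_r (σ τ : Y L) (g : G) : star (SS.r σ g τ : SS L) = .r τ g⁻¹ σ := rfl

noncomputable instance : StarMul (SS L) where
  star_mul a b := by
    rcases a with _ | ρ | ⟨σ, g, τ⟩
    · simp
    · rcases b with _ | ρ' | ⟨σ', g', τ'⟩
      · simp
      · by_cases h : Good L (ρ.1 ∪ ρ'.1)
        · have h' : Good L (ρ'.1 ∪ ρ.1) := h.mono (by grind)
          rw [ee_pos h, star_e, star_e, star_e, ee_pos h']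
          congr 1
          exact Y_ext (Set.union_comm _ _)
        · rw [ee_neg h, star_e, star_e, star_z, ee_neg (fun h' => h (h'.mono (by grind)))]
      · by_cases h : Good L (ρ.1 ∪ σ'.1)
        · have h' : Good L (σ'.1 ∪ ρ.1) := h.mono (by grind)
          rw [er_pos h, star_r, star_r, star_e, re_pos h']
          have hy : un ρ σ' h = un σ' ρ h' := Y_ext (Set.union_comm _ _)
          rw [hy, mul_inv_rev, ← P_symm]
        · rw [er_neg h, star_r, star_e, star_z, re_neg (fun h' => h (h'.mono (by grind)))]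
    · rcases b with _ | ρ' | ⟨σ', g', τ'⟩
      · simp
      · by_cases h : Good L (τ.1 ∪ ρ'.1)
        · have h' : Good L (ρ'.1 ∪ τ.1) := h.mono (by grind)
          rw [re_pos h, star_r, star_r, star_e, er_pos h']
          have hy : un τ ρ' h = un ρ' τ h' := Y_ext (Set.union_comm _ _)
          rw [hy, mul_inv_rev, ← P_symm]
        · rw [re_neg h, star_r, star_e, star_z, er_neg (fun h' => h (h'.mono (by grind)))]
      · by_cases h : Good L (τ.1 ∪ σ'.1)
        · have h' : Good L (σ'.1 ∪ τ.1) := h.mono (by grind)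
          rw [rr_pos h, star_r, star_r, star_r, rr_pos h', mul_inv_rev, mul_inv_rev, ← P_symm,
            mul_assoc]
        · rw [rr_neg h, star_r, star_r, star_z, rr_neg (fun h' => h (h'.mono (by grind)))]

theorem good_self (σ : Y L) : Good L (σ.1 ∪ σ.1) := σ.2.2.mono (by grind)

theorem un_self (σ : Y L) : un σ σ (good_self σ) = σ := Y_ext (Set.union_self _)

theorem regular (a : SS L) : a * star a * a = a := by
  rcases a with _ | ρ | ⟨σ, g, τ⟩
  · simp
  · rw [star_e, ee_pos (good_self ρ), un_self, ee_pos (good_self ρ), un_self]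
  · rw [star_r, rr_pos (good_self τ), rr_pos (good_self σ)]
    simp [P_self]

end Pool.Agent.H902Z.PG
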